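import Mathlib

set_option autoImplicit false

namespace Pool.Agent.ALK

open Subgroup

variable {Γ : Type} [Group Γ] [Finite Γ] {p : ℕ} [Fact p.Prime]

theorem baer_key {D I : Set Γ} (hD : ∀ a ∈ D, ∀ b ∈ D, a * b * a⁻¹ ∈ D) (hI : I ⊆ D) {x : Γ}
    (hx : x ∈ D) (hxI : x ∉ I) (hp : IsPGroup p (closure (insert x I))) :
    ∃ a ∈ D, a ∉ I ∧ a ∈ closure (insert x I) ∧ a ∈ normalizer (closure I : Set Γ) := by
  by_cases h0 : ∃ a ∈ D, a ∉ I ∧ a ∈ closure I
  · obtain ⟨a, h1, h2, h3⟩ := h0
    exact ⟨a, h1, h2, closure_mono (Set.subset_insert _ _) h3, le_normalizer h3⟩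
  push Not at h0
  set P := closure (insert x I)
  obtain ⟨T, ⟨t1, t2⟩, tm⟩ := (wellFounded_gt (α := Subgroup P)).has_min
    {T | (∀ t : P, t.1 ∈ I → t ∈ T) ∧ ∀ t ∈ T, t.1 ∈ D → t.1 ∈ I}
    ⟨(closure I).subgroupOf P, fun t ht => subset_closure ht, fun t ht hd => by
      by_contra hc; exact h0 _ hd hc ht⟩
  have := hp.isNilpotent
  have hlt : T < normalizer (T : Set P) := Group.normalizerCondition_of_isNilpotent T (lt_top_iff_ne_top.2
    fun e => hxI (t2 ⟨x, subset_closure (Set.mem_insert _ _)⟩ (e ▸ mem_top _) hx))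
  by_contra hc
  refine tm _ ⟨fun t ht => hlt.le (t1 t ht), fun a ha hd => ?_⟩ hlt
  by_contra hn
  refine hc ⟨a, hd, hn, a.2, normalizer_le_normalizer_closure _ (mem_normalizer_fintype fun i hi => ?_)⟩
  exact t2 (a * ⟨i, subset_closure (Set.mem_insert_of_mem _ hi)⟩ * a⁻¹)
    ((ha _).1 (t1 _ hi)) (hD _ hd _ (hI hi))

/-- The Baer-Suzuki theorem (proof of Alperin and Lyons). -/
theorem baer {D : Set Γ} (hD : ∀ a ∈ D, ∀ b ∈ D, a * b * a⁻¹ ∈ D)
    (h2 : ∀ a ∈ D, ∀ b ∈ D, IsPGroup p (closure {a, b})) : IsPGroup p (closure D) := by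
  let E : Set Γ → Set Γ := fun I => {x | x ∈ D ∧ IsPGroup p (closure (insert x I))}
  have key : ∀ I : Set Γ, I ⊆ D → IsPGroup p (closure I) → IsPGroup p (closure (E I)) := by
    intro I
    induction I using (wellFounded_gt (α := Set Γ)).induction with
    | _ I ih =>
    intro hI hp
    by_cases h0 : E I ⊆ I
    · exact hp.to_le (closure_mono h0)
    obtain ⟨x, hx, hxI⟩ := Set.not_subset.1 h0
    obtain ⟨a, aD, aI, ax, an⟩ := baer_key hD hI hx.1 hxI hx.2
    have hs : ∀ {a b : Γ}, a ∈ D → b ∈ D → a ∈ normalizer (closure I : Set Γ) →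
        b ∈ normalizer (closure I : Set Γ) → IsPGroup p (closure (insert b (insert a I))) :=
      fun {a b} aD bD an bn => (hp.to_sup_of_normal_left' (h2 a aD b bD) (by
        rw [closure_le]; rintro _ (rfl | rfl); exacts [an, bn])).to_le (by
          rw [closure_le]
          rintro z (rfl | rfl | hz)
          · exact mem_sup_right (subset_closure (by simp))
          · exact mem_sup_right (subset_closure (by simp))
          · exact mem_sup_left (subset_closure hz))
    have hs1 : ∀ {a : Γ}, a ∈ D → a ∈ normalizer (closure I : Set Γ) →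
        IsPGroup p (closure (insert a I)) := fun aD an =>
      (hs aD aD an an).to_le (closure_mono (Set.subset_insert _ _))
    have hi : ∀ {a : Γ}, a ∈ D → a ∉ I → a ∈ normalizer (closure I : Set Γ) →
        IsPGroup p (closure (E (insert a I))) := fun {a} aD aI an =>
      ih _ (Set.ssubset_insert aI) (Set.insert_subset aD hI) (hs1 aD an)
    refine (hi aD aI an).to_le (closure_mono fun y hy => ⟨hy.1, ?_⟩)
    by_cases hyI : y ∈ I
    · rw [Set.insert_comm, Set.insert_eq_of_mem hyI]; exact hs1 aD an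
    obtain ⟨b, bD, bI, bx, bn⟩ := baer_key hD hI hy.1 hyI hy.2
    refine (hi bD bI bn).to_le (closure_mono ?_)
    rintro z (rfl | rfl | hz)
    · refine ⟨hy.1, hy.2.to_le ?_⟩
      rw [closure_le]
      rintro w (rfl | rfl | hw)
      · exact subset_closure (by simp)
      · exact bx
      · exact subset_closure (by simp [hw])
    · exact ⟨aD, hs bD aD bn an⟩
    · refine ⟨hI hz, ?_⟩
      rw [Set.insert_comm, Set.insert_eq_of_mem hz]; exact hs1 bD bn
  refine (key ∅ (Set.empty_subset _) (by rw [Subgroup.closure_empty]; exact IsPGroup.of_bot)).to_le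
    (closure_mono fun x hx => ⟨hx, (h2 x hx x hx).to_le (closure_mono (by simp))⟩)

omit [Finite Γ] [Fact p.Prime] in
theorem zp_pg {g : Γ} {j : ℕ} (h : g ^ p ^ j = 1) : IsPGroup p (zpowers g) := by
  rintro ⟨_, n, rfl⟩
  refine ⟨j, Subtype.ext ?_⟩
  change (g ^ n) ^ p ^ j = 1
  rw [← zpow_natCast, ← zpow_mul, mul_comm, zpow_mul, zpow_natCast, h, one_zpow]

omit [Finite Γ] in
theorem dihedral {s t : Γ} (hs : s * s = 1) (ht : t * t = 1) {j : ℕ} (h : (s * t) ^ 2 ^ j = 1) :
    IsPGroup 2 (closure {s, t}) := by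
  have h1 : IsPGroup 2 (zpowers s) := zp_pg (j := 1) (by rwa [pow_one, sq])
  have hi : s⁻¹ = s := inv_eq_of_mul_eq_one_right hs
  have hj : t⁻¹ = t := inv_eq_of_mul_eq_one_right ht
  have e : s * (s * t) * s⁻¹ = (s * t)⁻¹ := by
    rw [← mul_assoc, hs, one_mul, mul_inv_rev, hj]
  refine ((zp_pg h).to_sup_of_normal_left' h1 (zpowers_le.2 ?_)).to_le ?_
  · rw [mem_normalizer_iff_map_conj_eq, MonoidHom.map_zpowers]
    simp only [MonoidHom.coe_coe, MulAut.conj_apply, e, zpowers_inv]
  · rw [closure_le]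
    have := mul_mem (mem_sup_right (S := zpowers (s * t)) (mem_zpowers s))
      (mem_sup_left (mem_zpowers (s * t)))
    rw [← mul_assoc, hs, one_mul] at this
    rintro _ (rfl | rfl)
    · exact mem_sup_right (mem_zpowers _)
    · exact this

/-- A Sylow subgroup of a transitive group of prime power degree is transitive. -/
theorem sylow_tr {X : Type} [MulAction Γ X] [MulAction.IsPretransitive Γ X] [Finite X] {k : ℕ}
    (hk : Nat.card X = p ^ k) (P : Sylow p Γ) (x y : X) : ∃ s ∈ (P : Subgroup Γ), s • x = y := by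
  have h1 := MulAction.index_stabilizer_of_transitive Γ x
  have h2 := index_dvd_of_le (inf_le_left (a := MulAction.stabilizer Γ x) (b := P))
  rw [← relIndex_mul_index inf_le_right, inf_relIndex_right, h1, hk] at h2
  have h3 : (MulAction.stabilizer Γ x).relIndex P = (MulAction.orbit P x).ncard :=
    MulAction.index_stabilizer P x
  have h4 := (Nat.Coprime.pow_left k ((Nat.Prime.coprime_iff_not_dvd Fact.out).2
    P.not_dvd_index)).dvd_of_dvd_mul_right h2
  rw [h3, ← hk] at h4
  have h5 : MulAction.orbit P x = Set.univ := by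
    refine Set.eq_of_subset_of_ncard_le (Set.subset_univ _) ?_
    rw [Set.ncard_univ]
    exact Nat.le_of_dvd ((Set.ncard_pos (Set.toFinite _)).2 ⟨_, MulAction.mem_orbit_self x⟩) h4
  obtain ⟨s, hs⟩ : y ∈ MulAction.orbit P x := h5 ▸ trivial
  exact ⟨s, s.2, hs⟩

end Pool.Agent.ALK
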