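import Mathlib

set_option autoImplicit false
set_option linter.unusedSectionVars false

namespace Pool.Agent.ALK

abbrev W := List ℕ
abbrev St := W × ℕ × Bool
abbrev Rl := Bool × W × W

def li (c : ℕ) : ℕ := if c % 2 = 0 then c + 1 else c - 1
def winv (w : W) : W := (w.map li).reverse
def cs (c : ℕ) : W → W
  | [] => [c]
  | d :: w => if d = li c then w else c :: d :: w
def fr (w : W) : W := w.foldr cs []
def pt (i : ℕ) : W := if i = 0 then [] else [2 * i]
def pu (c : ℕ) (f : Bool) : ℕ := if f then c / 2 % 16 else c / 32 % 16
def pv (c : ℕ) (f : Bool) : ℕ := pu c (!f)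

def step (rs : List Rl) (b : Bool) (w : W) (s : St) : W :=
  match rs[s.2.1]? with
  | none => w
  | some R => if R.1 && !(b && s.1.isEmpty) then w else
      fr (s.1 ++ (if s.2.2 then R.2.2 ++ winv R.2.1 else R.2.1 ++ winv R.2.2) ++ winv s.1 ++ w)

def chain (rs : List Rl) (b : Bool) (l r : W) (s : List St) : Bool :=
  s.foldl (step rs b) (fr l) == fr r

def lam (c : ℕ) (w : W) : W := winv w ++ [c] ++ w

inductive It
  | swap (c : ℕ) (f : Bool)
  | sym (c : ℕ) (f : Bool) (w : W) (d : ℕ) (g : Bool) (v : W) (s : List St)
  | pair (c : ℕ) (f : Bool) (w : W) (d : ℕ) (g : Bool) (v : W) (s t : List St)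
  | tri (a : ℕ) (fa : Bool) (b : ℕ) (fb : Bool) (c : ℕ) (fc : Bool)
  | chain (b : Bool) (l r : W) (s : List St)

def triv : Rl := (false, [], [])

def out (rs : List Rl) : It → Rl
  | .swap c f => if c % 2 = 0 then (true, pt (pu c f) ++ [c], pt (pv c f)) else triv
  | .sym c f w d g v s =>
      if c % 2 = 0 ∧ d % 2 = 0 ∧ chain rs true (pt (pu c f) ++ w) (pt (pu d g) ++ v) s = true then
        (true, pt (pv c f) ++ w ++ lam d v, pt (pv d g) ++ v ++ lam c w) else triv
  | .pair c f w d g v s t =>
      if c % 2 = 0 ∧ d % 2 = 0 ∧ chain rs true (pt (pu c f) ++ w) (pt (pu d g) ++ v) s = true ∧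
        chain rs true (pt (pv c f) ++ w) (pt (pv d g) ++ v) t = true then
        (false, lam c w, lam d v) else triv
  | .tri a fa b fb c fc =>
      if a % 2 = 0 ∧ b % 2 = 0 ∧ c % 2 = 0 ∧ pu a fa = pv c fc ∧ pv a fa = pv b fb ∧
        pu b fb = pu c fc then (false, [li c, b, c], [li a, b, a]) else triv
  | .chain b l r s => if chain rs b l r s = true then (b, l, r) else triv

def run (rs : List Rl) (is : List It) : List Rl := is.foldl (fun rs i => rs ++ [out rs i]) rs

variable {Γ X : Type} [Group Γ] [MulAction Γ X]

/-- The axioms of a symmetric system of swaps. -/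
structure Sw (Λ : X → X → Γ) : Prop where
  mv : ∀ u v, Λ u v • u = v
  sy : ∀ u v, Λ u v = Λ v u
  ex : ∀ u v w, Λ u v • w = Λ u w • v
  cj : ∀ (g : Γ) u v, g * Λ u v * g⁻¹ = Λ (g • u) (g • v)

variable (Λ : X → X → Γ) (p : ℕ → X)

def gen (c : ℕ) : Γ :=
  if c % 2 = 0 then Λ (p (c / 32 % 16)) (p (c / 2 % 16)) else (Λ (p (c / 32 % 16)) (p (c / 2 % 16)))⁻¹

def ev : W → Γ
  | [] => 1
  | c :: w => ev w * gen Λ p c

theorem gen_li (c : ℕ) : gen Λ p (li c) = (gen Λ p c)⁻¹ := by
  unfold li gen
  by_cases h : c % 2 = 0
  · have h1 : ¬ (c + 1) % 2 = 0 := by omega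
    have h2 : (c + 1) / 32 = c / 32 := by omega
    have h3 : (c + 1) / 2 = c / 2 := by omega
    simp [h, h1, h2, h3]
  · have h1 : (c - 1) % 2 = 0 := by omega
    have h2 : (c - 1) / 32 = c / 32 := by omega
    have h3 : (c - 1) / 2 = c / 2 := by omega
    simp [h, h1, h2, h3]

theorem ev_app (a b : W) : ev Λ p (a ++ b) = ev Λ p b * ev Λ p a := by
  induction a with
  | nil => simp [ev]
  | cons c a ih => simp [ev, ih, mul_assoc]

theorem ev_winv (a : W) : ev Λ p (winv a) = (ev Λ p a)⁻¹ := by
  induction a with
  | nil => simp [winv, ev]
  | cons c a ih =>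
    simp only [winv, List.map_cons, List.reverse_cons] at ih ⊢
    rw [ev_app, ih]; simp [ev, gen_li]

theorem ev_fr (a : W) : ev Λ p (fr a) = ev Λ p a := by
  induction a with
  | nil => rfl
  | cons c a ih =>
    change ev Λ p (cs c (fr a)) = ev Λ p a * _
    rw [← ih]
    cases fr a with
    | nil => rfl
    | cons d w =>
      simp only [cs]
      split_ifs with h
      · simp [ev, h, gen_li]
      · rfl

def Hd (R : Rl) : Prop :=
  if R.1 then ev Λ p R.2.1 • p 0 = ev Λ p R.2.2 • p 0 else ev Λ p R.2.1 = ev Λ p R.2.2

variable {Λ p}

theorem hd_step {rs : List Rl} (h : ∀ R ∈ rs, Hd Λ p R) (b : Bool) (w : W) (s : St) :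
    Hd Λ p (b, w, step rs b w s) := by
  have hr : Hd Λ p (b, w, w) := by cases b <;> simp [Hd]
  unfold step
  split
  · exact hr
  · rename_i R hR
    have hh := h R (List.mem_of_getElem? hR)
    obtain ⟨c, l, r⟩ := R
    obtain ⟨q, i, d⟩ := s
    by_cases h1 : (c && !(b && q.isEmpty)) = true
    · simp only [h1, if_true]; exact hr
    · simp only [h1]
      cases c
      · simp only [Hd, Bool.false_eq_true, if_false] at hh
        have : ev Λ p (fr (q ++ (if d then r ++ winv l else l ++ winv r) ++ winv q ++ w))
            = ev Λ p w := by
          cases d <;> simp [ev_fr, ev_app, ev_winv, hh]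
        cases b <;> simp only [Hd, Bool.false_eq_true, if_false, if_true, this]
      · simp only [Hd, if_true] at hh
        simp only [Bool.true_and, Bool.not_eq_true', Bool.not_eq_false, Bool.and_eq_true,
          List.isEmpty_iff] at h1
        obtain ⟨rfl, rfl⟩ := h1
        cases d
        · simp [Hd, ev_fr, ev_app, ev_winv, ev, mul_smul, hh]
        · simp [Hd, ev_fr, ev_app, ev_winv, ev, mul_smul, ← hh]

theorem hd_trans {b : Bool} {u v w : W} (h1 : Hd Λ p (b, u, v)) (h2 : Hd Λ p (b, v, w)) :
    Hd Λ p (b, u, w) := by
  cases b <;> simp only [Hd, Bool.false_eq_true, if_false, if_true] at * <;> exact h1.trans h2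

theorem hd_chain {rs : List Rl} (h : ∀ R ∈ rs, Hd Λ p R) {b : Bool} {l r : W} {s : List St}
    (e : chain rs b l r s = true) : Hd Λ p (b, l, r) := by
  have : ∀ w, Hd Λ p (b, w, s.foldl (step rs b) w) := by
    clear e
    induction s with
    | nil => intro w; cases b <;> simp [Hd]
    | cons t s ih => exact fun w => hd_trans (hd_step h b w t) (ih _)
  have h2 := this (fr l)
  rw [beq_iff_eq.1 e] at h2
  cases b <;> simpa [Hd, ev_fr] using h2

theorem ev_pt (H : Sw Λ) (c : ℕ) (f : Bool) : ev Λ p (pt (pu c f)) • p 0 = p (pu c f) := by
  have : pu c f < 16 := by unfold pu; split_ifs <;> omega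
  generalize pu c f = i at this
  unfold pt
  split_ifs with h
  · simp [h, ev]
  · have h2 : 2 * i / 32 % 16 = 0 := by omega
    have h3 : i % 16 = i := by omega
    simp [ev, gen, h2, h3, H.mv]

theorem gen_ev (H : Sw Λ) {c : ℕ} (h : c % 2 = 0) (f : Bool) :
    gen Λ p c = Λ (p (pu c f)) (p (pv c f)) := by
  cases f
  · simp [gen, h, pu, pv]
  · rw [H.sy]; simp [gen, h, pu, pv]

theorem ev_lam (H : Sw Λ) {c : ℕ} (h : c % 2 = 0) (f : Bool) (w : W) :
    ev Λ p (lam c w) = Λ (ev Λ p w • p (pu c f)) (ev Λ p w • p (pv c f)) := by
  rw [← H.cj, ← gen_ev H h]; simp [lam, ev_app, ev_winv, ev, mul_assoc]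

theorem hd_out (H : Sw Λ) {rs : List Rl} (h : ∀ R ∈ rs, Hd Λ p R) (i : It) :
    Hd Λ p (out rs i) := by
  have ht : Hd Λ p triv := by simp [Hd, triv]
  have hv : ∀ c f, ev Λ p (pt (pv c f)) • p 0 = p (pv c f) := fun c f => ev_pt H c _
  cases i with
  | swap c f =>
    simp only [out]; split_ifs with e
    · simp only [Hd, if_true, ev_app, ev, one_mul, mul_smul, ev_pt H, hv, gen_ev H e f, H.mv]
    · exact ht
  | sym c f w d g v s =>
    simp only [out]; split_ifs with e
    · have h1 := hd_chain h e.2.2
      simp only [Hd, if_true, ev_app, mul_smul, ev_pt H] at h1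
      simp only [Hd, if_true, ev_app, mul_smul, hv, ev_lam H e.1 f, ev_lam H e.2.1 g, h1]
      exact H.ex _ _ _
    · exact ht
  | pair c f w d g v s t =>
    simp only [out]; split_ifs with e
    · have h1 := hd_chain h e.2.2.1
      have h2 := hd_chain h e.2.2.2
      simp only [Hd, if_true, ev_app, mul_smul, ev_pt H, hv] at h1 h2
      simp only [Hd, Bool.false_eq_true, if_false, ev_lam H e.1 f, ev_lam H e.2.1 g, h1, h2]
    · exact ht
  | tri a fa b fb c fc =>
    simp only [out]; split_ifs with e
    · obtain ⟨ea, eb, ec, e1, e2, e3⟩ := e
      simp only [Hd, Bool.false_eq_true, if_false, ev, one_mul, gen_li, gen_ev H eb fb, H.cj]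
      rw [gen_ev H ea fa, gen_ev H ec fc, e1, e2, e3, H.mv, H.sy, H.ex (p (pv c fc)),
        H.sy (p (pv c fc)) (p (pu c fc)), H.sy (p (pv c fc)) (p (pv b fb)), H.mv]
    · exact ht
  | chain b l r s =>
    simp only [out]; split_ifs with e
    · exact hd_chain h e
    · exact ht

theorem hd_run (H : Sw Λ) (is : List It) {rs : List Rl} (h : ∀ R ∈ rs, Hd Λ p R) :
    ∀ R ∈ run rs is, Hd Λ p R := by
  induction is generalizing rs with
  | nil => exact h
  | cons i is ih =>
    refine ih (rs := rs ++ [out rs i]) fun R hR => ?_
    rcases List.mem_append.1 hR with a | a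
    · exact h R a
    · rw [List.mem_singleton.1 a]; exact hd_out H h i

def cert : List It := [
  .swap 36 false,
  .swap 36 true,
  .swap 38 false,
  .swap 38 true,
  .swap 70 false,
  .swap 70 true,
  .swap 40 false,
  .swap 42 false,
  .swap 76 false,
  .swap 76 true,
  .swap 108 true,
  .swap 172 false,
  .tri 172 false 12 false 10 false,
  .tri 172 true 10 false 12 false,
  .tri 6 false 38 false 2 true,
  .sym 44 false [] 2 true [] [],
  .sym 40 false [] 36 false [] [],
  .tri 72 false 40 false 36 false,
  .sym 44 false [] 36 false [] [],
  .sym 42 false [] 38 false [] [],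
  .tri 106 false 42 false 38 false,
  .sym 44 false [] 38 false [] [],
  .sym 42 false [] 40 false [] [],
  .tri 106 true 38 false 42 false,
  .sym 44 false [] 42 false [] [],
  .tri 40 false 72 false 36 true,
  .sym 76 false [] 36 true [] [],
  .sym 76 false [] 70 false [] [],
  .tri 108 false 76 false 70 false,
  .sym 76 false [] 72 false [] [],
  .sym 38 true [] 6 true [] [],
  .sym 104 false [] 6 true [] [],
  .sym 108 false [] 6 true [] [],
  .sym 104 false [] 38 true [] [],
  .tri 42 false 106 false 38 true,
  .sym 108 false [] 38 true [] [],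
  .tri 76 false 108 false 70 true,
  .sym 138 false [] 40 true [] [],
  .sym 140 false [] 72 true [] [],
  .sym 172 false [] 42 true [] [],
  .sym 44 true [] 12 true [] [],
  .chain true [8,36] [] [([],0,true)],
  .chain true [8] [37] [([],44,true)],
  .chain true [10,38] [] [([],1,true)],
  .chain true [10] [39] [([],46,true)],
  .chain true [12,70] [] [([],2,true)],
  .chain true [12] [71] [([],48,true)],
  .chain true [2,36] [4] [([],3,true)],
  .chain true [4,36] [2] [([],4,true)],
  .chain true [2,38] [6] [([],5,true)],
  .chain true [6,39] [2] [([],52,false)],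
  .chain true [6,38] [2] [([],6,true)],
  .chain true [4,70] [6] [([],7,true)],
  .chain true [6,71] [4] [([],55,false)],
  .chain true [6,70] [4] [([],8,true)],
  .chain true [2,40] [37] [([],9,true),([],45,true)],
  .chain true [2,42] [39] [([],10,true),([],47,true)],
  .chain true [4,76] [71] [([],11,true),([],49,true)],
  .chain true [71,76] [4] [([],49,false),([],12,true)],
  .chain true [4,77] [71] [([],61,false)],
  .chain true [71,108] [6] [([],49,false),([],13,true)],
  .chain true [6,109] [71] [([],63,false)],
  .chain true [39,172] [71] [([],47,false),([],14,true),([],49,true)],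
  .chain true [71,173] [39] [([],65,false)],
  .chain true [71,2] [44] [([],49,false),([],18,true)],
  .chain true [2,6] [38] [([],33,true)],
  .chain true [37,6] [104] [([],45,false),([],34,true)],
  .chain true [104,7] [37] [([],69,false)],
  .chain true [71,6] [108] [([],49,false),([],35,true)],
  .chain true [2,12] [44] [([],43,true)],
  .chain true [44,13] [2] [([],72,false)],
  .chain false [173,12,172] [11,12,10] [([],15,false)],
  .chain false [173,10,172] [13,10,12] [([],16,false)],
  .chain false [7,38,6] [3,38,2] [([],17,false)],
  .chain true [4,40] [] [([],19,false),([],45,true)],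
  .chain false [73,40,72] [37,40,36] [([],20,false)],
  .chain true [71,36] [4,44] [([],49,false),([],21,true)],
  .chain true [6,42] [] [([],22,false),([],47,true)],
  .chain false [107,42,106] [39,42,38] [([],23,false)],
  .chain true [71,38] [6,44] [([],49,false),([],24,true)],
  .chain true [39,40] [37,42] [([],47,false),([],25,true),([],45,true)],
  .chain false [107,38,106] [43,38,42] [([],26,false)],
  .chain true [71,42] [39,44] [([],49,false),([],27,true),([],47,true)],
  .chain false [41,72,40] [37,72,36] [([],28,false)],
  .chain true [4,44] [2,76] [([],79,false),([],49,false),([],29,true)],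
  .chain true [6,76] [] [([],30,false),([],49,true)],
  .chain false [109,76,108] [71,76,70] [([],31,false)],
  .chain true [4,108] [] [([],61,false),([],64,false),([6],89,true),([],56,true),([],60,true)],
  .chain true [71,72] [37,76] [([],49,false),([],32,true),([],45,true)],
  .chain true [37,38] [2,104] [([],45,false),([],36,true)],
  .chain false [43,106,42] [39,106,38] [([],37,false)],
  .chain true [6,44] [2,108] [([],82,false),([],49,false),([],38,true)],
  .chain false [77,108,76] [71,108,70] [([],39,false)],
  .chain true [37,42] [2,138] [([],83,false),([],47,false),([],40,true)],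
  .chain true [37,76] [4,140] [([],91,false),([],49,false),([],41,true)],
  .chain true [39,44] [2,172] [([],85,false),([],49,false),([],42,true)],
  .chain false [6,3,38,2] [38,6] [([6],76,false)],
  .chain false [38,6,3] [6,3,38] [([],99,false)],
  .chain false [172,11,12,10] [12,172] [([172],74,false)],
  .chain false [172,11,12] [12,172,11] [([],101,true)],
  .chain false [12,172,11,13] [172,11] [([],102,false)],
  .chain false [172,11,13] [13,172,11] [([13],103,true)],
  .chain false [39,42,38,107] [107,42] [([],81,false)],
  .chain false [42,38,107] [38,107,42] [([38],105,true)],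
  .chain false [43,38,42,107] [107,38] [([],84,false)],
  .chain true [2,172,43] [71] [([],98,false),([],85,false)],
  .chain false [37,72,36,41] [41,72] [([],86,false)],
  .chain false [72,36,41] [36,41,72] [([36],109,true)],
  .chain false [71,76,70,109] [109,76] [([],89,false)],
  .chain false [76,70,109] [70,109,76] [([70],111,true)],
  .chain true [2,104,39] [37] [([],92,false)],
  .chain false [42,39,106,38] [106,42] [([42],93,false)],
  .chain false [39,106,38,43] [43,106] [([],93,false)],
  .chain false [106,38,43] [38,43,106] [([38],115,true)],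
  .chain false [76,71,108,70] [108,76] [([76],95,false)],
  .chain false [71,108,70,77] [77,108] [([],95,false)],
  .chain false [108,70,77] [70,77,108] [([70],118,true)],
  .chain true [4,140,77] [37] [([],97,false)],
  .chain false [72,37,40,36] [40,72] [([72],78,false)],
  .chain false [72,37,40] [40,72,37] [([],121,true)],
  .chain false [106,39,42,38] [42,106] [([106],81,false)],
  .chain false [106,39,42] [42,106,39] [([],123,true)],
  .chain false [108,71,76,70] [76,108] [([108],89,false)],
  .chain false [108,71,76] [76,108,71] [([],125,true)],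
  .chain false [39,6,3,38] [6,3] [([39],100,false)],
  .chain false [39,6,3] [6,3,39] [([],127,true)],
  .chain false [6,3,39,2] [39,6] [([],128,false)],
  .pair 40 true [36] 4 false [] [([],45,true)] [([],50,true)],
  .pair 72 true [36] 2 false [] [([],45,true)] [([],51,true)],
  .pair 42 true [38] 6 false [] [([],47,true)] [([],52,true)],
  .pair 106 true [38] 2 false [] [([],47,true)] [([],54,true)],
  .pair 76 true [70] 6 false [] [([],49,true)] [([],55,true)],
  .pair 108 true [70] 4 false [] [([],49,true)] [([],57,true)],
  .pair 36 true [40] 8 false [] [([],77,true)] [([],58,true),([],45,false)],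
  .pair 38 true [42] 10 false [] [([],80,true)] [([],59,true),([],47,false)],
  .pair 70 true [76] 12 false [] [([],88,true)] [([],60,true),([],49,false)],
  .pair 36 true [108] 172 false [38] [([],90,true),([],47,false)] [([],94,false),([],82,false),([],49,false)],
  .sym 138 true [38] 6 false [] [([],47,true)],
  .chain false [37,40,36] [4] [([],130,true)],
  .chain false [40,36] [36,4] [([36],141,true)],
  .chain false [72,4] [40,72] [([72],141,false),([],122,true)],
  .chain false [37,72,36] [2] [([],131,true)],
  .chain false [41,72] [2,41] [([37],110,false),([],144,true)],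
  .chain false [39,42,38] [6] [([],132,true)],
  .chain false [107,42] [6,107] [([39],106,false),([],146,true)],
  .chain false [42,38] [38,6] [([38],146,true)],
  .chain false [106,6] [42,106] [([106],146,false),([],124,true)],
  .chain false [39,106,38] [2] [([],133,true)],
  .chain false [106,42] [42,2] [([],114,false),([42],150,true)],
  .chain false [43,106] [2,43] [([39],116,false),([],150,true)],
  .chain false [106,38] [38,2] [([38],150,true)],
  .chain false [71,76,70] [6] [([],134,true)],
  .chain false [109,76] [6,109] [([71],112,false),([],154,true)],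
  .chain false [76,70] [70,6] [([70],154,true)],
  .chain false [108,6] [76,108] [([108],154,false),([],126,true)],
  .chain false [71,108,70] [4] [([],135,true)],
  .chain false [108,76] [76,4] [([],117,false),([76],158,true)],
  .chain false [77,108] [4,77] [([71],119,false),([],158,true)],
  .chain false [41,36,40] [8] [([],136,true)],
  .chain false [41,36] [8,41] [([],161,true)],
  .chain false [43,38,42] [10] [([],137,true)],
  .chain false [107,38] [10,107] [([],107,false),([],163,true)],
  .chain false [43,38] [10,43] [([],163,true)],
  .chain false [77,70,76] [12] [([],138,true)],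
  .chain false [77,70] [12,77] [([],166,true)],
  .chain false [8,41,4] [36] [([],162,false),([41],142,false)],
  .chain false [8,41] [36,5] [([],168,true)],
  .chain false [40,72,5] [72] [([],143,false)],
  .chain false [72,5] [2,41] [([41],170,true),([],145,true)],
  .chain false [10,43,6] [38] [([],165,false),([43],148,false)],
  .chain false [43,6] [11,38] [([11],172,true)],
  .chain false [6,107,2] [42] [([],147,false),([107],151,false)],
  .chain false [107,2] [7,42] [([7],174,true)],
  .chain false [2,11,38] [106] [([2],173,false),([],152,false),([43],149,true)],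
  .chain false [11,38] [3,106] [([3],176,true)],
  .chain false [10,7,42] [38] [([10],175,false),([],164,false),([107],153,false)],
  .chain false [10,7] [38,43] [([],178,true)],
  .chain false [7,42] [3,106] [([11],178,true),([],177,true)],
  .chain false [38,3,106] [10] [([38],177,false),([38],173,false),([],179,false)],
  .chain false [39,10] [3,106] [([39],181,false)],
  .chain false [12,77,6] [70] [([],167,false),([77],156,false)],
  .chain false [77,6] [13,70] [([13],183,true)],
  .chain false [76,108,7] [108] [([],157,false)],
  .chain false [108,7] [4,77] [([77],185,true),([],160,true)],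
  .chain false [6,109,4] [76] [([],155,false),([109],159,false)],
  .chain false [76,5] [6,109] [([],187,false)],
  .chain false [4,13,70] [108] [([4],184,false),([],160,false),([77],157,true)],
  .chain false [13,70] [5,108] [([5],189,true)],
  .chain false [36,5,37] [41] [([],169,false),([],162,false)],
  .chain false [109,36,108] [39,172,38] [([],139,true)],
  .chain false [108,3,106] [4,77,42] [([108],180,false),([],186,true)],
  .chain false [39,172,38,109] [109,36] [([],192,false)],
  .chain false [172,38,109] [38,109,36] [([38],194,true)],
  .chain false [108,39,172,38] [36,108] [([108],192,false)],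
  .chain false [108,39,172] [36,108,39] [([],196,true)],
  .chain false [173,38,109,36] [38,109] [([173],195,false)],
  .chain false [173,38,109] [38,109,37] [([],198,true)],
  .chain true [4,140,5] [44,41] [([],97,false),([],91,false),([71],171,true),([],67,true)],
  .chain true [2,172,11] [108,39] [([2,172],173,false),([],108,true),([],71,true)],
  .chain true [104,3,106] [2,138] [([104],180,false),([],70,true),([],96,true)],
  .chain true [4,140,13] [104,71] [([4,140],184,false),([],120,true),([],69,true)],
  .chain true [44,41,108] [104] [([],200,false),([4,140],190,false),([],203,true)],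
  .chain true [44,41] [104,109] [([],204,true)],
  .chain true [38,109,37] [71,41] [([],68,false),([2],188,false),([],87,false),([],79,false),([71],191,true)],
  .sym 12 true [173,38] 72 false [108] [([],49,true),([],66,true),([],90,false)],
  .chain true [2,138,38] [2,104,6] [([],53,false),([],140,false),([],45,true),([],92,true)],
  .chain true [108,39,12] [44,172,11] [([],201,false),([2],102,true),([],72,true)],
  .chain true [44,172,11,173] [104,39] [([],209,false),([37],197,false),([],45,false),([],207,false),([],199,true),([],206,true),([71],145,true),([],67,true),([],205,true)],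
  .chain true [2,172,12] [2,138,172] [([],98,false),([],85,false),([],62,false),([],193,false),([108],182,false),([],201,false),([],73,false),([44],104,false),([44,172,11],75,false),([],210,true),([104],182,true),([],202,true)],
  .sym 12 true [173,38] 6 false [] [([],49,true),([],66,true)],
  .chain true [173,38,6] [2,104,6] [([],212,true),([],53,true),([],211,true),([],208,true)],
  .chain true [173,6] [104] [([173,38],129,false),([],213,true),([2,104],129,true),([],113,true),([],69,true)],
  .chain true [173] [37] [([],214,true),([],70,true)],
  .chain true [37,172] [] [([],215,false)],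
  .chain true [8,172] [] [([],45,true),([],216,true)]]

theorem cert_ok : (true, [8, 172], []) ∈
    run [(true, [8, 36], []), (true, [10, 38], []), (true, [12, 70], [])] cert := by
  decide +kernel

/-- The Pasch configuration. -/
theorem pasch (H : Sw Λ) {o a b c x q r : X} (h1 : Λ a b • x = o) (h2 : Λ a c • q = o)
    (h3 : Λ b c • r = o) : Λ q r • x = o := by
  let p : ℕ → X := fun i => [o, a, b, c, x, q, r].getD i o
  have := hd_run (p := p) H cert (rs := [(true, [8, 36], []), (true, [10, 38], []),
    (true, [12, 70], [])]) (by
      simp [Hd, ev, gen, p, mul_smul, H.mv, h1, h2, h3]) _ cert_ok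
  simpa [Hd, ev, gen, p, mul_smul, H.mv] using this

end Pool.Agent.ALK
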