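import Pool.Agent.H.MP_428e1d_al.C
import Pool.Agent.H.MP_427786_al.B
import Pool.Agent.H.MP_427786_al.K

set_option autoImplicit false
set_option linter.unusedSectionVars false

namespace Pool.Agent.AL

open Equiv Subgroup

variable {Q : Type} [ALoop Q]

/-- Inversion as a permutation. -/
noncomputable def J : Perm Q := ⟨iv, iv, iv_iv, iv_iv⟩

@[simp] theorem J_app (x : Q) : J x = iv x := rfl

theorem JJ : (J * J : Perm Q) = 1 := Equiv.ext iv_iv

theorem J_inv : (J : Perm Q)⁻¹ = J := rfl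

theorem coe_app (g : G Q) (x : Q) : g.1 x = g • x := rfl

theorem J_inn {f : G Q} (h : f • (1 : Q) = 1) : f.1 * J = J * f.1 :=
  Equiv.ext fun x => (inn h).iv x

/-- The conjugates of the inversion. -/
noncomputable def Jx (x : Q) : Perm Q := L x * J * (L x)⁻¹

theorem Jx_one : Jx (1 : Q) = J := by
  have : L (1 : Q) = 1 := congrArg Subtype.val l_one
  simp [Jx, this]

theorem JxJx (x : Q) : Jx x * Jx x = 1 := by
  simp only [Jx, mul_assoc, inv_mul_cancel_left]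
  rw [← mul_assoc J, JJ, one_mul, mul_inv_cancel]

theorem conj_J (g : G Q) : g.1 * J * g.1⁻¹ = Jx (g • (1 : Q)) := by
  obtain ⟨f, f1, e⟩ := shift g (1 : Q)
  rw [l_one, mul_one] at e
  conv_lhs => rw [e]
  change L _ * f.1 * J * (L _ * f.1)⁻¹ = _
  rw [mul_assoc _ f.1, J_inn f1]; simp [Jx, mul_assoc]

variable (Q) in
/-- Permutations compatible with the family of symmetries. -/
def Ga : Subgroup (Perm Q) where
  carrier := {s | ∀ x, s * Jx x * s⁻¹ = Jx (s x)}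
  one_mem' := by simp
  mul_mem' := fun {a b} ha hb x => by
    rw [Perm.mul_apply, ← ha, ← hb]; group
  inv_mem' := fun {a} ha x => by
    have := ha (a⁻¹ x)
    rw [show a (a⁻¹ x) = x by simp] at this
    rw [← this]; group

theorem mlt_ga (g : G Q) : g.1 ∈ Ga Q := fun x => by
  have := conj_J (g * l x)
  rw [mul_smul, l_smul, mo] at this
  rw [coe_app, ← this]
  simp [Jx, mul_assoc, l]

theorem JLJ (x : Q) : J * L x * J = R (iv x) := Equiv.ext fun y => by simp [aaip]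

theorem J_ga : (J : Perm Q) ∈ Ga Q := fun x => by
  have := conj_J (r (iv x))
  rw [r_smul, om] at this
  rw [J_app, ← this]
  change _ = R _ * _ * (R _)⁻¹
  rw [← JLJ, Jx]
  simp only [mul_inv_rev, J_inv, mul_assoc]
  rw [← mul_assoc J J, JJ, one_mul]

theorem Jx_ga (x : Q) : Jx x ∈ Ga Q :=
  mul_mem (mul_mem (mlt_ga (l x)) J_ga) (inv_mem (mlt_ga (l x)))

noncomputable def Pm (x : Q) : G Q := l x * (r (iv x))⁻¹

theorem Pm_coe (x : Q) : (Pm x).1 = Jx x * J := by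
  change L x * (R _)⁻¹ = _
  rw [← JLJ, Jx]; simp only [mul_inv_rev, J_inv, mul_assoc]

theorem lr_comm (x : Q) : Commute (l x) (r x) := gext fun y => by simp [mul_smul, flex]

theorem r_iv (x : Q) (n : ℕ) : (r (iv x))⁻¹ • r x ^ n • (1 : Q) = r x ^ (n + 1) • (1 : Q) := by
  set f := r (iv x) * r x
  have f1 : f • (1 : Q) = 1 := by simp [f, mul_smul, mul_iv]
  have f2 : f • x = x := by
    have := (inn f1).iv x
    rw [show f • iv x = iv x by simp [f, mul_smul, iv_mul]] at this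
    simpa using congrArg iv this.symm
  have hc : Commute f (r x) := by
    have := (inn f1).conjr x
    rwa [f2] at this
  rw [inv_smul_eq_iff, pow_succ', ← mul_smul, ← mul_assoc, (hc.pow_right n).eq, mul_smul, f1]

theorem Pm_pow (x : Q) (n : ℕ) : Pm x ^ n • (1 : Q) = r x ^ (2 * n) • (1 : Q) := by
  induction n with
  | zero => simp
  | succ n ih =>
    rw [pow_succ', mul_smul, ih, Pm, mul_smul, r_iv, ← mul_smul, ((lr_comm x).pow_right _).eq,
      mul_smul, show 2 * (n + 1) = 2 * n + 1 + 1 by ring, pow_succ _ (2 * n + 1), mul_smul]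
    simp

theorem Pm_ord {x : Q} {n : ℕ} (h : r x ^ n • (1 : Q) = 1) : (Jx x * J) ^ (2 * n) = 1 := by
  have h1 : Pm x ^ n • (1 : Q) = 1 := by rw [Pm_pow, two_mul, pow_add, mul_smul, h, h]
  have h2 := J_inn h1
  rw [Subgroup.coe_pow, Pm_coe] at h2
  have h3 : J * (Jx x * J) * J⁻¹ = (Jx x * J)⁻¹ := by
    rw [mul_inv_rev, J_inv, inv_eq_of_mul_eq_one_right (JxJx x), mul_assoc, mul_assoc, JJ, mul_one]
  have h4 : J * (Jx x * J) ^ n * J⁻¹ = ((Jx x * J) ^ n)⁻¹ := by rw [← conj_pow, h3, inv_pow]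
  rw [← h2, mul_inv_cancel_right] at h4
  rw [two_mul, pow_add]
  exact mul_eq_one_iff_eq_inv.2 h4

instance : MulAction.IsPretransitive (Ga Q) Q := ⟨fun x y =>
  ⟨⟨_, mlt_ga (l y * (l x)⁻¹)⟩, by
    change (l y * (l x)⁻¹) • x = y
    rw [mul_smul, show (l x)⁻¹ • x = 1 by simp [inv_smul_eq_iff], l_smul, mo]⟩⟩

variable [Finite Q]

/-- In a loop of order a power of two all symmetries lie in one Sylow subgroup. -/
theorem two_of_card {k : ℕ} (h : Nat.card Q = 2 ^ k) (x : Q) : ∃ m, (Jx x * J) ^ 2 ^ m = 1 := by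
  obtain ⟨P, hP⟩ := (zp_pgroup (p := 2) (g := (⟨J, J_ga⟩ : Ga Q)) (j := 1)
    (Subtype.ext JJ)).exists_le_sylow
  obtain ⟨s, hs, e⟩ := ALK.sylow_tr h P 1 x
  have hJ := hP (mem_zpowers _)
  obtain ⟨m, hm⟩ := P.isPGroup' ⟨_, mul_mem (mul_mem (mul_mem hs hJ) (inv_mem hs)) hJ⟩
  have h2 := s.2 1
  rw [Jx_one, show s.1 1 = x from e] at h2
  refine ⟨m, ?_⟩
  rw [← h2]
  exact congrArg (fun z => z.1.1) hm

theorem clos_two (h : ∀ x : Q, ∃ m, (Jx x * J) ^ 2 ^ m = 1) :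
    IsPGroup 2 (closure (Set.range (Jx (Q := Q)))) := by
  refine ALK.baer ?_ ?_
  · rintro _ ⟨a, rfl⟩ _ ⟨b, rfl⟩
    exact ⟨_, (Jx_ga a b).symm⟩
  · rintro _ ⟨a, rfl⟩ _ ⟨b, rfl⟩
    obtain ⟨z, rfl⟩ := exl b a
    obtain ⟨m, hm⟩ := h z
    refine ALK.dihedral (JxJx _) (JxJx _) (j := m) ?_
    have e1 := mlt_ga (l b) z
    have : Jx (b * z) * Jx b = L b * (Jx z * J) * (L b)⁻¹ := by
      rw [← show L b * Jx z * (L b)⁻¹ = Jx (b * z) from e1, Jx.eq_1 b]; group
    rw [this, conj_pow, hm]; simp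

variable (Q) in
/-- The normal subgroup of the multiplication group cut out by the symmetries. -/
def Us : Subgroup (G Q) := (closure (Set.range Jx)).comap (Mlt Q).subtype

instance : (Us Q).Normal := ⟨fun u hu g => by
  have : (Mlt Q) ≤ normalizer (closure (Set.range (Jx (Q := Q))) : Set (Perm Q)) := by
    rw [le_normalizer_closure_iff]
    rintro h hh _ ⟨x, rfl⟩
    exact subset_closure ⟨_, (mlt_ga ⟨h, hh⟩ x).symm⟩
  exact (this g.2 _).1 hu⟩

theorem Pm_us (x : Q) : Pm x ∈ Us Q := by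
  change (Pm x).1 ∈ Subgroup.closure _
  rw [Pm_coe, ← Jx_one]
  exact mul_mem (subset_closure ⟨_, rfl⟩) (subset_closure ⟨_, rfl⟩)

/-- The orbit of the identity under a normal subgroup is a normal subloop. -/
theorem orb_nrm (U : Subgroup (G Q)) [hn : U.Normal] : Nrm {y : Q | ∃ g ∈ U, y = g • (1 : Q)} :=
  ⟨⟨⟨1, one_mem _, by simp⟩, by
    rintro _ _ ⟨u, hu, rfl⟩ ⟨v, hv, rfl⟩
    refine ⟨_, mul_mem (hn.conj_mem _ hv (l (u • (1 : Q)))) hu, ?_⟩
    rw [mul_smul, mul_smul, mul_smul, show (l (u • (1 : Q)))⁻¹ • u • (1 : Q) = 1 by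
      simp [inv_smul_eq_iff], l_smul]⟩, by
    rintro f _ f1 ⟨u, hu, rfl⟩
    refine ⟨_, hn.conj_mem _ hu f, ?_⟩
    rw [mul_smul, mul_smul, inv_smul_eq_iff.2 f1.symm]⟩

theorem orb_ker (U : Subgroup (G Q)) [hn : U.Normal] : U ≤ (orb_nrm U).pi.ker := fun u hu =>
  (orb_nrm U).mem_ker.2 fun y => ⟨_, ⟨_, hn.conj_mem _ hu (l y)⁻¹, rfl⟩, by
    rw [← l_smul]; simp [mul_smul]⟩

noncomputable def La (x y : Q) : G Q := l x * l ((l x)⁻¹ • y) * (l x)⁻¹

theorem La_cj (g : G Q) (u v : Q) : g * La u v * g⁻¹ = La (g • u) (g • v) := by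
  obtain ⟨f, f1, e⟩ := shift g u
  have e1 : g = l (g • u) * f * (l u)⁻¹ := by rw [← e]; simp
  have e2 : (l (g • u))⁻¹ • g • v = f • (l u)⁻¹ • v := by
    rw [inv_smul_eq_iff, ← mul_smul, ← e, mul_smul, smul_inv_smul]
  rw [La, La, e2, ← mul_inv_eq_iff_eq_mul.2 ((inn f1).conjl _)]
  generalize g • u = w at e1
  rw [e1]; group

theorem La_one (v : Q) : La 1 v = l v := by simp [La, l_one]

theorem sw (hc : ∀ x y : Q, x * y = y * x) (h2 : ∀ x : Q, x * x = 1) : ALK.Sw (La (Q := Q)) where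
  mv u v := by
    rw [La, mul_smul, mul_smul, show (l u)⁻¹ • u = 1 by simp [inv_smul_eq_iff], l_smul _ 1, mo,
      smul_inv_smul]
  sy u v := by
    obtain ⟨v, rfl⟩ := exl u v
    have h1 := La_cj (l u) 1 v
    have h3 := La_cj (l u) v 1
    rw [l_smul, l_smul, mo] at h1 h3
    rw [← h1, ← h3, La_one, La, show (l v)⁻¹ • (1 : Q) = v by simp [inv_smul_eq_iff, h2]]
    simp
  ex u v w := by
    obtain ⟨v, rfl⟩ := exl u v
    obtain ⟨w, rfl⟩ := exl u w
    simp only [La, mul_smul, ← l_smul u, inv_smul_smul]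
    simp [hc v w]
  cj := La_cj

theorem card_e2 (hc : ∀ x y : Q, x * y = y * x) (h2 : ∀ x : Q, x * x = 1) :
    ∃ m, Nat.card Q = 2 ^ m := by
  have H := sw hc h2
  let o : Q → Q → Q := fun x y => (La x y)⁻¹ • (1 : Q)
  have oc : ∀ x y, o x y = o y x := fun x y => by simp only [o, H.sy x y]
  have o1 : ∀ x, o 1 x = x := fun x => by simp [o, La_one, inv_smul_eq_iff, h2]
  have oo : ∀ x, o x x = 1 := fun x => by
    simp [o, La, show (l x)⁻¹ • x = 1 by simp [inv_smul_eq_iff], l_one]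
  have pa : ∀ a b c, o (o a c) (o b c) = o a b := fun a b c =>
    inv_smul_eq_iff.2 (ALK.pasch H (smul_inv_smul _ _) (smul_inv_smul _ _) (smul_inv_smul _ _)).symm
  have as : ∀ x y z, o (o x y) z = o x (o y z) := fun x y z => by
    have h1 := pa x 1 y
    rw [o1, oc x 1, o1] at h1
    rw [← pa (o x y) z y, h1, oc z]
  let _ : Group Q :=
    { mul := o, one := 1, inv := id, mul_assoc := as, one_mul := o1,
      mul_one := fun x => (oc x 1).trans (o1 x), inv_mul_cancel := oo }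
  exact IsPGroup.iff_card.1 fun x => ⟨1, by rw [pow_one, sq]; exact oo x⟩

theorem qt_e2 (U : Subgroup (G Q)) [U.Normal] (h : ∀ x, Pm x ∈ U) :
    (∀ x y : (orb_nrm U).Qt, x * y = y * x) ∧ ∀ x : (orb_nrm U).Qt, x * x = 1 := by
  have h1 : ∀ x y : (orb_nrm U).Qt, x * y = y * iv x := fun x y => by
    obtain ⟨x, rfl⟩ := (orb_nrm U).mk_surj x
    have := orb_ker U (h x)
    rw [MonoidHom.mem_ker, Pm, map_mul, map_inv, mul_inv_eq_one, Nrm.pi_l, Nrm.pi_r] at this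
    have e : (orb_nrm U).cl (iv x) = iv ((orb_nrm U).cl x) :=
      iv_uniq (by rw [← Nrm.mk_mul, mul_iv, Nrm.mk_one])
    rw [← e]; exact congrArg (· • y) this
  have h2 : ∀ x : (orb_nrm U).Qt, iv x = x := fun x => by simpa using (h1 x 1).symm
  exact ⟨fun x y => by rw [h1, h2], fun x => by rw [← mul_iv x, h2]⟩

theorem main2 : (∃ k, Nat.card Q = 2 ^ k) ↔ ∀ x : Q, ∃ k, r x ^ 2 ^ k • (1 : Q) = 1 := by
  constructor
  · rintro ⟨k, hk⟩ x
    obtain ⟨m, hm⟩ := two_of_card hk x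
    refine ⟨m + 1, ?_⟩
    have : Pm x ^ 2 ^ m = 1 := Subtype.ext (by rw [Subgroup.coe_pow, Pm_coe, hm]; rfl)
    rw [pow_succ', ← Pm_pow, this, one_smul]
  · intro h
    have hU : IsPGroup 2 (Us Q) := (clos_two fun x => by
      obtain ⟨k, hk⟩ := h x
      exact ⟨k + 1, by rw [pow_succ']; exact Pm_ord hk⟩).comap_of_injective _ Subtype.val_injective
    obtain ⟨j, hj⟩ := orb_card hU (1 : Q)
    obtain ⟨c1, c2⟩ := qt_e2 (Us Q) Pm_us
    obtain ⟨m, hm⟩ := card_e2 c1 c2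
    exact ⟨m + j, by rw [(orb_nrm (Us Q)).card, hm, hj, pow_add]⟩

end Pool.Agent.AL
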